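import Pool.Agent.Run7.h100.UN.Iface

/-!
# Project UN (helper100), piece ALPHA (helper354)
-/

set_option autoImplicit false

namespace Run7.h354.UN

open Polynomial Run7.h100.UN
open Pool.Agent.Helper259.AbsHt (absLogHeight)

theorem t_ALPHA : S_POLY → S_MAH → S_ALPHA := by
  intro hP hM s hs hsum A
  obtain ⟨d₀, hd₀⟩ := hP s hs
  obtain ⟨f, hm, hdeg, hirr, hlog, hT⟩ :=
    hd₀ (max d₀ (A.sup (fun x => (minpoly ℚ x).natDegree) + 1)) (le_max_left _ _)
  set D := A.sup (fun x => (minpoly ℚ x).natDegree) with hD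
  set d := max d₀ (D + 1) with hd
  have hDd : D + 1 ≤ d := le_max_right _ _
  have hdpos : 0 < d := by omega
  obtain ⟨α, hα⟩ : ∃ α : Qb, aeval α f = 0 := by
    have h1 : (f.map (algebraMap ℤ Qb)).degree ≠ 0 := by
      rw [hm.degree_map, degree_eq_natDegree hm.ne_zero, hdeg]
      exact_mod_cast hdpos.ne'
    obtain ⟨α, hα⟩ := IsAlgClosed.exists_root _ h1
    refine ⟨α, ?_⟩
    rw [IsRoot.def, eval_map_algebraMap] at hα
    exact hα
  refine ⟨α, ?_, ?_, fun p hp => hT α hα p hp⟩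
  · intro hA
    have h1 : f.map (algebraMap ℤ ℚ) = minpoly ℚ α :=
      minpoly.eq_of_irreducible_of_monic
        ((hm.irreducible_iff_irreducible_map_fraction_map (K := ℚ)).1 hirr)
        (by rw [aeval_map_algebraMap]; exact hα) (hm.map _)
    have h2 : (minpoly ℚ α).natDegree = d := by rw [← h1, hm.natDegree_map, hdeg]
    have h3 : (minpoly ℚ α).natDegree ≤ D :=
      Finset.le_sup (f := fun x : Qb => (minpoly ℚ x).natDegree) hA
    omega
  · have hdr : (0 : ℝ) < (d : ℝ) := by exact_mod_cast hdpos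
    have h1 := hM f hm hirr α hα
    rw [hdeg] at h1
    refine h1.trans ?_
    rw [div_le_iff₀ hdr]
    refine hlog.trans ?_
    have h2 : (1 : ℝ) + 2 * ∑ p ∈ s, Real.log p / ((p : ℝ) - 1) ≤ 5 := by linarith
    calc (d : ℝ) * (1 + 2 * ∑ p ∈ s, Real.log p / ((p : ℝ) - 1)) ≤ d * 5 :=
          mul_le_mul_of_nonneg_left h2 hdr.le
      _ = 5 * d := by ring

end Run7.h354.UN
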